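import Mathlib
import Pool.Agent.H79.EucWin.Defs
import Pool.Agent.H79.EucWin.Facts

/-!
# Euclidean windows of weighted norms in unit rank one

In every number field of unit rank one no weighted norm `f_{p,c}` with `c < N p` is Euclidean.
-/

open NumberField IsDedekindDomain

namespace Pool.Agent.Results.MP_f42bc2_nt.UnitRankOne

/-- For every number field of unit rank one and every nonzero prime ideal `p` of its ring of
integers, the Euclidean window of `p` is contained in `[N p, ∞)`. -/
theorem result (K : Type) [Field K] [NumberField K] (hK : NumberField.Units.rank K = 1)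
    (p : HeightOneSpectrum (𝓞 K)) :
    Pool.Agent.H79.EucWin.window K p ⊆ Set.Ici (Ideal.absNorm p.asIdeal : ℝ) :=
  fun _ hc => Pool.Agent.H79.EucWin.absNorm_le_of_mem_window hK p hc

end Pool.Agent.Results.MP_f42bc2_nt.UnitRankOne
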