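import Mathlib
import Pool.Agent.H79.EucWin.Defs
import Pool.Agent.H79.EucWin.QSqrtTwo

/-!
# Euclidean windows of weighted norms need not be open in positive unit rank

The number field `ℚ(√2)` has unit rank one, and for every nonzero prime ideal `p` of its ring of
integers the Euclidean window `w(p)` has least element `N p`. So `w(p)` is not open.
-/

open NumberField IsDedekindDomain

namespace Pool.Agent.Results.MP_f42bc2_nt.WindowNotOpen

/-- There is a number field of unit rank one (a quadratic field containing a square root of `2`)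
such that for every nonzero prime ideal `p` the Euclidean window of `p` lies in `(1, ∞)`, has the
absolute norm of `p` as its least element, and is not an open set of real numbers. -/
theorem result :
    ∃ (K : Type) (_ : Field K) (_ : NumberField K),
      Module.finrank ℚ K = 2 ∧ (∃ s : K, s ^ 2 = 2) ∧ NumberField.Units.rank K = 1 ∧
      ∀ p : HeightOneSpectrum (𝓞 K),
        Pool.Agent.H79.EucWin.window K p ⊆ Set.Ioi 1 ∧
        IsLeast (Pool.Agent.H79.EucWin.window K p) (Ideal.absNorm p.asIdeal : ℝ) ∧
        ¬ IsOpen (Pool.Agent.H79.EucWin.window K p) := by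
  refine ⟨Pool.Agent.H79.EucWin.Q2, inferInstance, inferInstance,
    Pool.Agent.H79.EucWin.finrankQ2, ⟨Pool.Agent.H79.EucWin.om, ?_⟩,
    Pool.Agent.H79.EucWin.rankQ2, fun p => ?_⟩
  · rw [pow_two]; exact Pool.Agent.H79.EucWin.om_sq
  · have h := Pool.Agent.H79.EucWin.isLeast_window Pool.Agent.H79.EucWin.rankQ2 p
      Pool.Agent.H79.EucWin.normEuclideanQ2
    exact ⟨Pool.Agent.H79.EucWin.window_subset Pool.Agent.H79.EucWin.rankQ2 p, h,
      Pool.Agent.H79.EucWin.not_isOpen_of_isLeast h⟩

end Pool.Agent.Results.MP_f42bc2_nt.WindowNotOpen
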